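import Mathlib
import Pool.Agent.X190.FB.Main

/-!
# Norm attainment of lattice extensions in free p-convex Banach lattices (MP_43bafb_an, Q1)

For every Banach space `E`, every `p ∈ [1,∞)` and every `x* ∈ E*`: `x*` attains its norm if and
only if its lattice homomorphism extension to the free `p`-convex Banach lattice attains its norm.
-/

universe u

namespace Pool.Agent.Results.MP_43bafb_an.NormAttainment

open X190.FB

/-- A bounded functional attains its norm on the closed unit ball. -/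
def Attains {Z : Type u} [NormedAddCommGroup Z] [NormedSpace ℝ Z] (φ : Z →L[ℝ] ℝ) : Prop :=
  ∃ z : Z, ‖z‖ ≤ 1 ∧ φ z = ‖φ‖

/-- Q1 holds: for every free `p`-convex Banach lattice `δ : E → L` and every functional `xs`,
its lattice homomorphism extension `φ` exists and is unique, and `xs` attains its norm if and
only if `φ` does. Moreover every Banach lattice is `1`-convex with constant one, so that `p = 1`
is the case of the free Banach lattice. -/
theorem result :
    (∀ (p : ℝ), 1 ≤ p → ∀ (E L : Type u) [NormedAddCommGroup E] [NormedSpace ℝ E]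
      [CompleteSpace E] [NormedAddCommGroup L] [NormedSpace ℝ L] [CompleteSpace L] [Lattice L]
      [IsOrderedAddMonoid L] [HasSolidNorm L] [PosSMulMono ℝ L] (δ : E →ₗᵢ[ℝ] L),
      IsFree p δ → ∀ xs : E →L[ℝ] ℝ, ∃ φ : L →L[ℝ] ℝ,
        (IsLatHom φ ∧ (∀ e, φ (δ e) = xs e) ∧ ‖φ‖ = ‖xs‖) ∧
        (∀ ψ : L →L[ℝ] ℝ, IsLatHom ψ → (∀ e, ψ (δ e) = xs e) → ‖ψ‖ = ‖xs‖ → ψ = φ) ∧
        (Nontrivial E → ∀ ψ : L →L[ℝ] ℝ, IsLatHom ψ → (∀ e, ψ (δ e) = xs e) → ψ = φ) ∧
        (Attains xs ↔ Attains φ)) ∧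
    (∀ (X : Type u) [NormedAddCommGroup X] [NormedSpace ℝ X] [CompleteSpace X] [Lattice X]
      [IsOrderedAddMonoid X] [HasSolidNorm X] [PosSMulMono ℝ X], PConvex 1 X) := by
  refine ⟨?_, ?_⟩
  · intro p hp E L _ _ _ _ _ _ _ _ _ _ δ h xs
    obtain ⟨φ, hφ1, hφ2, hφ3⟩ := exists_ev hp h xs
    refine ⟨φ, ⟨hφ1, hφ2, hφ3⟩, ?_, ?_, ?_⟩
    · intro ψ hψ1 hψ2 hψ3
      rcases subsingleton_or_nontrivial E with hE | hE
      · have h0 : xs = 0 := by
          ext e
          rw [Subsingleton.elim e 0, map_zero, map_zero]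
        rw [h0, norm_zero] at hψ3 hφ3
        rw [norm_eq_zero.mp hψ3, norm_eq_zero.mp hφ3]
      · exact hom_unique hp h hψ1 hφ1 fun e => by rw [hψ2, hφ2]
    · intro hE ψ hψ1 hψ2
      exact hom_unique hp h hψ1 hφ1 fun e => by rw [hψ2, hφ2]
    · constructor
      · rintro ⟨e, he, hxe⟩
        exact ⟨δ e, by rw [δ.norm_map]; exact he, by rw [hφ2, hxe, hφ3]⟩
      · rintro ⟨f, hf, hφf⟩
        rcases eq_or_ne xs 0 with h0 | h0
        · exact ⟨0, by simp, by rw [h0]; simp⟩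
        have hc : 0 < ‖xs‖ := norm_pos_iff.mpr h0
        haveI : Nontrivial E := by
          by_contra hE
          rw [not_nontrivial_iff_subsingleton] at hE
          apply h0
          ext e
          rw [Subsingleton.elim e 0, map_zero, map_zero]
        obtain ⟨e, he, hxe⟩ := main hp h (‖xs‖⁻¹ • xs) (by
            rw [norm_smul, norm_inv, norm_norm, inv_mul_cancel₀ hc.ne']) (‖xs‖⁻¹ • φ) (by
            intro a b
            change ‖xs‖⁻¹ * φ (a ⊔ b) = (‖xs‖⁻¹ * φ a) ⊔ (‖xs‖⁻¹ * φ b) ∧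
              ‖xs‖⁻¹ * φ (a ⊓ b) = (‖xs‖⁻¹ * φ a) ⊓ (‖xs‖⁻¹ * φ b)
            rw [(hφ1 a b).1, (hφ1 a b).2]
            exact ⟨mul_max_of_nonneg _ _ (inv_pos.mpr hc).le,
              mul_min_of_nonneg _ _ (inv_pos.mpr hc).le⟩) (by
            intro e
            change ‖xs‖⁻¹ * φ (δ e) = ‖xs‖⁻¹ * xs e
            rw [hφ2]) f hf (by
            change ‖xs‖⁻¹ * φ f = 1
            rw [hφf, hφ3, inv_mul_cancel₀ hc.ne'])
        refine ⟨e, he, ?_⟩
        have : ‖xs‖⁻¹ * xs e = 1 := hxe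
        rw [inv_mul_eq_iff_eq_mul₀ hc.ne', mul_one] at this
        exact this
  · intro X _ _ _ _ _ _ _
    exact pconvex_one

end Pool.Agent.Results.MP_43bafb_an.NormAttainment
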